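import Mathlib

set_option autoImplicit false

namespace Pool.Agent.TH843.ClientWaiterLowerBound

/-- A `k`-clause on `n` variables: the set of its positive and the set of its negated variables;
they are disjoint and have `k` elements together. -/
abbrev Clause (n k : ℕ) :=
  {p : Finset (Fin n) × Finset (Fin n) // Disjoint p.1 p.2 ∧ (p.1 ∪ p.2).card = k}

/-- The assignment `a` satisfies the clause `c`. -/
def Sat {n k : ℕ} (a : Fin n → Bool) (c : Clause n k) : Prop :=
  (∃ i ∈ c.1.1, a i = true) ∨ (∃ i ∈ c.1.2, a i = false)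

/-- No assignment satisfies all clauses of `S`. -/
def Unsat {n k : ℕ} (S : Finset (Clause n k)) : Prop :=
  ∀ a : Fin n → Bool, ∃ c ∈ S, ¬ Sat a c

/-- `ClientWins q U S`: Client has a winning strategy in the `(1:q)` Client-Waiter `k`-SAT game
from the position in which `U` is the set of unclaimed clauses and `S` the set of Client's
clauses. If no clause is left, Client wins iff `S` is unsatisfiable. Otherwise Waiter offers a set
`T` of at least `1` and at most `q + 1` unclaimed clauses, Client takes the clause `choice T` of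
`T` and Waiter takes the others. -/
inductive ClientWins {n k : ℕ} (q : ℕ) : Finset (Clause n k) → Finset (Clause n k) → Prop
  | done (S : Finset (Clause n k)) (h : Unsat S) : ClientWins q ∅ S
  | round (U S : Finset (Clause n k)) (hU : U.Nonempty) (choice : Finset (Clause n k) → Clause n k)
      (hmem : ∀ T, T ⊆ U → T.Nonempty → T.card ≤ q + 1 → choice T ∈ T)
      (hwin : ∀ T, T ⊆ U → T.Nonempty → T.card ≤ q + 1 →
        ClientWins q (U \ T) (insert (choice T) S)) : ClientWins q U S

/-- Client wins the whole game: at the start all clauses are unclaimed. -/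
def ClientWinsGame (n k q : ℕ) : Prop := ClientWins (n := n) (k := k) q Finset.univ ∅

open Classical in
/-- the potential -/
noncomputable def pot {n k : ℕ} (q : ℕ) (U S : Finset (Clause n k)) : ℝ :=
  ∑ a ∈ (Finset.univ : Finset (Fin n → Bool)).filter (fun a => ∀ c ∈ S, Sat a c),
    (1 - 1 / ((q : ℝ) + 1)) ^ (U.filter (fun c => ¬ Sat a c)).card

theorem rho_nonneg (q : ℕ) : 0 ≤ 1 - 1 / ((q : ℝ) + 1) := by
  have h : (1 : ℝ) ≤ (q : ℝ) + 1 := by
    have := Nat.cast_nonneg (α := ℝ) q
    linarith
  have := div_le_one_of_le₀ h (by linarith)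
  linarith

/-- Bernoulli -/
theorem bern (q t v : ℕ) (ht : 1 ≤ t) (htq : t ≤ q + 1) :
    (t : ℝ) - v ≤ t * (1 - 1 / ((q : ℝ) + 1)) ^ v := by
  have hq : (0 : ℝ) < (q : ℝ) + 1 := by positivity
  have hq1 : (1 : ℝ) ≤ (q : ℝ) + 1 := by
    have := Nat.cast_nonneg (α := ℝ) q
    linarith
  have ht0 : (0 : ℝ) < t := by exact_mod_cast ht
  have htq' : (t : ℝ) ≤ (q : ℝ) + 1 := by exact_mod_cast htq
  have h0 : 1 / ((q : ℝ) + 1) ≤ 1 := div_le_one_of_le₀ hq1 hq.le
  have hb := one_add_mul_le_pow (a := -(1 / ((q : ℝ) + 1))) (by linarith) v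
  have h1 : 1 - 1 / ((q : ℝ) + 1) = 1 + -(1 / ((q : ℝ) + 1)) := by ring
  rw [h1]
  have h2 : (t : ℝ) * (1 + v * -(1 / ((q : ℝ) + 1))) ≤ t * (1 + -(1 / ((q : ℝ) + 1))) ^ v :=
    mul_le_mul_of_nonneg_left hb ht0.le
  refine le_trans ?_ h2
  have h3 : (t : ℝ) * (1 / ((q : ℝ) + 1)) ≤ 1 := by
    rw [mul_one_div, div_le_one hq]
    exact htq'
  have hv : (0 : ℝ) ≤ v := Nat.cast_nonneg v
  have h4 : (v : ℝ) * (t * (1 / ((q : ℝ) + 1))) ≤ v * 1 := mul_le_mul_of_nonneg_left h3 hv
  linarith

theorem exists_choice {n k : ℕ} (q : ℕ) (U S T : Finset (Clause n k)) (hTU : T ⊆ U)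
    (hT : T.Nonempty) (hTq : T.card ≤ q + 1) :
    ∃ c ∈ T, pot q (U \ T) (insert c S) ≤ pot q U S := by
  classical
  by_contra hcon
  push Not at hcon
  have hlt : ∑ c ∈ T, pot q U S < ∑ c ∈ T, pot q (U \ T) (insert c S) :=
    Finset.sum_lt_sum_of_nonempty hT hcon
  rw [Finset.sum_const, nsmul_eq_mul] at hlt
  apply absurd hlt
  rw [not_lt]
  -- exchange the sums
  have hT1 : 1 ≤ T.card := Finset.card_pos.mpr hT
  have e1 : ∀ c ∈ T, pot q (U \ T) (insert c S) =
      ∑ a ∈ (Finset.univ : Finset (Fin n → Bool)).filter (fun a => ∀ c ∈ S, Sat a c),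
        if Sat a c then (1 - 1 / ((q : ℝ) + 1)) ^ ((U \ T).filter (fun c => ¬ Sat a c)).card
        else 0 := by
    intro c _
    unfold pot
    rw [← Finset.sum_filter]
    congr 1
    ext a
    simp only [Finset.mem_filter, Finset.mem_univ, true_and, Finset.forall_mem_insert]
    exact and_comm
  rw [Finset.sum_congr rfl e1, Finset.sum_comm]
  unfold pot
  rw [Finset.mul_sum]
  apply Finset.sum_le_sum
  intro a _
  rw [← Finset.sum_filter, Finset.sum_const, nsmul_eq_mul]
  have hsplit : (U.filter (fun c => ¬ Sat a c)).card =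
      ((U \ T).filter (fun c => ¬ Sat a c)).card + (T.filter (fun c => ¬ Sat a c)).card := by
    rw [← Finset.card_union_of_disjoint]
    · congr 1
      rw [← Finset.filter_union, Finset.sdiff_union_of_subset hTU]
    · exact Finset.disjoint_filter_filter Finset.sdiff_disjoint
  have hcnt : (T.filter (fun c => Sat a c)).card + (T.filter (fun c => ¬ Sat a c)).card =
      T.card := Finset.card_filter_add_card_filter_not _
  rw [hsplit, pow_add]
  have hb := bern q T.card (T.filter (fun c => ¬ Sat a c)).card hT1 hTq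
  have hcnt' : ((T.filter (fun c => Sat a c)).card : ℝ) =
      (T.card : ℝ) - (T.filter (fun c => ¬ Sat a c)).card := by
    rw [← hcnt]; push_cast; ring
  rw [hcnt']
  have hp : 0 ≤ (1 - 1 / ((q : ℝ) + 1)) ^ ((U \ T).filter (fun c => ¬ Sat a c)).card :=
    pow_nonneg (rho_nonneg q) _
  have := mul_le_mul_of_nonneg_right hb hp
  linarith

theorem wins_of_pot {n k : ℕ} (q : ℕ) : ∀ (m : ℕ) (U S : Finset (Clause n k)), U.card ≤ m →
    pot q U S < 1 → ClientWins q U S := by
  classical
  intro m
  induction m with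
  | zero =>
    intro U S hU hpot
    have hU0 : U = ∅ := Finset.card_eq_zero.mp (Nat.le_zero.mp hU)
    subst hU0
    apply ClientWins.done
    intro a
    by_contra hcon
    push Not at hcon
    have hmem : a ∈ (Finset.univ : Finset (Fin n → Bool)).filter (fun a => ∀ c ∈ S, Sat a c) := by
      simp only [Finset.mem_filter, Finset.mem_univ, true_and]
      exact hcon
    have h1 : (1 : ℝ) ≤ pot q ∅ S := by
      unfold pot
      simp only [Finset.filter_empty, Finset.card_empty, pow_zero, Finset.sum_const, nsmul_eq_mul,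
        mul_one]
      have : 1 ≤ ((Finset.univ : Finset (Fin n → Bool)).filter (fun a => ∀ c ∈ S, Sat a c)).card :=
        Finset.card_pos.mpr ⟨a, hmem⟩
      exact_mod_cast this
    linarith
  | succ m ih =>
    intro U S hU hpot
    by_cases hU0 : U = ∅
    · exact ih U S (by rw [hU0]; simp) hpot
    · have hne : U.Nonempty := Finset.nonempty_iff_ne_empty.mpr hU0
      have hex : ∀ T : Finset (Clause n k), ∃ c : Clause n k, T ⊆ U → T.Nonempty →
          T.card ≤ q + 1 → c ∈ T ∧ pot q (U \ T) (insert c S) ≤ pot q U S := by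
        intro T
        by_cases h : T ⊆ U ∧ T.Nonempty ∧ T.card ≤ q + 1
        · obtain ⟨c, hc, hc'⟩ := exists_choice q U S T h.1 h.2.1 h.2.2
          exact ⟨c, fun _ _ _ => ⟨hc, hc'⟩⟩
        · exact ⟨hne.choose, fun h1 h2 h3 => absurd ⟨h1, h2, h3⟩ h⟩
      choose choice hchoice using hex
      refine ClientWins.round U S hne choice (fun T h1 h2 h3 => (hchoice T h1 h2 h3).1) ?_
      intro T h1 h2 h3
      apply ih
      · have := Finset.card_sdiff_add_card_eq_card h1
        have h4 : 1 ≤ T.card := Finset.card_pos.mpr h2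
        omega
      · exact lt_of_le_of_lt (hchoice T h1 h2 h3).2 hpot

/-- every assignment violates at least `C(n,k)` clauses -/
theorem violated (n k : ℕ) (a : Fin n → Bool) : open Classical in
    n.choose k ≤ ((Finset.univ : Finset (Clause n k)).filter (fun c => ¬ Sat a c)).card := by
  classical
  have h0 : (Finset.powersetCard k (Finset.univ : Finset (Fin n))).card = n.choose k := by
    rw [Finset.card_powersetCard, Finset.card_univ, Fintype.card_fin]
  rw [← h0]
  have hmk : ∀ s ∈ Finset.powersetCard k (Finset.univ : Finset (Fin n)),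
      Disjoint (s.filter (fun i => a i = false)) (s.filter (fun i => a i = true)) ∧
      (s.filter (fun i => a i = false) ∪ s.filter (fun i => a i = true)).card = k := by
    intro s hs
    constructor
    · rw [Finset.disjoint_left]
      intro i hi hi'
      rw [Finset.mem_filter] at hi hi'
      rw [hi.2] at hi'
      exact absurd hi'.2 (by simp)
    · have : s.filter (fun i => a i = false) ∪ s.filter (fun i => a i = true) = s := by
        ext i
        simp only [Finset.mem_union, Finset.mem_filter]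
        cases a i <;> simp
      rw [this]
      exact (Finset.mem_powersetCard.mp hs).2
  have hsub : Finset.powersetCard k (Finset.univ : Finset (Fin n)) ⊆
      ((Finset.univ : Finset (Clause n k)).filter (fun c => ¬ Sat a c)).image
        (fun c => c.1.1 ∪ c.1.2) := by
    intro s hs
    refine Finset.mem_image.mpr ⟨⟨(s.filter (fun i => a i = false),
      s.filter (fun i => a i = true)), hmk s hs⟩, ?_, ?_⟩
    · rw [Finset.mem_filter]
      refine ⟨Finset.mem_univ _, ?_⟩
      rintro (⟨i, hi, h⟩ | ⟨i, hi, h⟩)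
      · have := (Finset.mem_filter.mp hi).2
        rw [h] at this
        exact absurd this (by simp)
      · have := (Finset.mem_filter.mp hi).2
        rw [h] at this
        exact absurd this (by simp)
    · show s.filter (fun i => a i = false) ∪ s.filter (fun i => a i = true) = s
      ext i
      simp only [Finset.mem_union, Finset.mem_filter]
      cases a i <;> simp
  exact (Finset.card_le_card hsub).trans Finset.card_image_le

/-- Client wins if `(q+1) n ln 2 ≤ C(n,k)`. -/
theorem client_wins (n k q : ℕ) (hk : k ≤ n)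
    (h : ((q : ℝ) + 1) * ((n : ℝ) * Real.log 2) ≤ (n.choose k : ℝ)) : ClientWinsGame n k q := by
  classical
  have hq : (0 : ℝ) < (q : ℝ) + 1 := by positivity
  have hC : n.choose k ≠ 0 := (Nat.choose_pos hk).ne'
  have hρ0 := rho_nonneg q
  have hρ1 : 1 - 1 / ((q : ℝ) + 1) ≤ 1 := by
    have : 0 ≤ 1 / ((q : ℝ) + 1) := by positivity
    linarith
  apply wins_of_pot q _ _ _ le_rfl
  have h1 : pot q (Finset.univ : Finset (Clause n k)) ∅ ≤
      2 ^ n * (1 - 1 / ((q : ℝ) + 1)) ^ n.choose k := by
    unfold pot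
    calc _ ≤ ∑ a ∈ (Finset.univ : Finset (Fin n → Bool)).filter
          (fun a => ∀ c ∈ (∅ : Finset (Clause n k)), Sat a c),
          (1 - 1 / ((q : ℝ) + 1)) ^ n.choose k :=
        Finset.sum_le_sum (fun a _ => pow_le_pow_of_le_one hρ0 hρ1 (violated n k a))
      _ = ((Finset.univ : Finset (Fin n → Bool)).filter
          (fun a => ∀ c ∈ (∅ : Finset (Clause n k)), Sat a c)).card *
          (1 - 1 / ((q : ℝ) + 1)) ^ n.choose k := by rw [Finset.sum_const, nsmul_eq_mul]
      _ = 2 ^ n * (1 - 1 / ((q : ℝ) + 1)) ^ n.choose k := by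
        have : ((Finset.univ : Finset (Fin n → Bool)).filter
            (fun a => ∀ c ∈ (∅ : Finset (Clause n k)), Sat a c)).card = 2 ^ n := by
          rw [Finset.filter_true_of_mem (by simp), Finset.card_univ]
          simp
        rw [this]
        push_cast
        ring
  have h2 : 1 - 1 / ((q : ℝ) + 1) < Real.exp (-(1 / ((q : ℝ) + 1))) := by
    have hne : -(1 / ((q : ℝ) + 1)) ≠ 0 := by
      have : 0 < 1 / ((q : ℝ) + 1) := by positivity
      linarith [this.ne']
    have := Real.add_one_lt_exp hne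
    linarith
  have h3 : (1 - 1 / ((q : ℝ) + 1)) ^ n.choose k <
      Real.exp (-(1 / ((q : ℝ) + 1))) ^ n.choose k := pow_lt_pow_left₀ h2 hρ0 hC
  have h4 : Real.exp (-(1 / ((q : ℝ) + 1))) ^ n.choose k ≤ ((2 : ℝ) ^ n)⁻¹ := by
    rw [← Real.exp_nat_mul]
    have h5 : ((2 : ℝ) ^ n)⁻¹ = Real.exp (-((n : ℝ) * Real.log 2)) := by
      rw [Real.exp_neg, Real.exp_nat_mul, Real.exp_log (by norm_num)]
    rw [h5]
    apply Real.exp_le_exp.mpr
    have h6 : (n : ℝ) * Real.log 2 ≤ (n.choose k : ℝ) / ((q : ℝ) + 1) := by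
      rw [le_div_iff₀ hq]
      linarith
    have h7 : (n.choose k : ℝ) * -(1 / ((q : ℝ) + 1)) = -((n.choose k : ℝ) / ((q : ℝ) + 1)) := by
      ring
    rw [h7]
    linarith
  have h8 : (0 : ℝ) < 2 ^ n := by positivity
  calc pot q (Finset.univ : Finset (Clause n k)) ∅
      ≤ 2 ^ n * (1 - 1 / ((q : ℝ) + 1)) ^ n.choose k := h1
    _ < 2 ^ n * ((2 : ℝ) ^ n)⁻¹ := mul_lt_mul_of_pos_left (lt_of_lt_of_le h3 h4) h8
    _ = 1 := mul_inv_cancel₀ h8.ne'

/-- the threshold bias `b^{CW}(n,k)`: the least `q ≥ 1` for which Waiter wins (Client does not) -/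
noncomputable def bCW (n k : ℕ) : ℕ := sInf {q | 1 ≤ q ∧ ¬ ClientWinsGame n k q}

/-- for large bias Waiter wins -/
theorem waiter_wins (n k : ℕ) (hk : 1 ≤ k) (hkn : k ≤ n) :
    ∃ q, 1 ≤ q ∧ ¬ ClientWinsGame n k q := by
  classical
  refine ⟨(Finset.univ : Finset (Clause n k)).card + 1, by omega, ?_⟩
  have hne : (Finset.univ : Finset (Clause n k)).Nonempty := by
    have h1 := violated n k (fun _ => false)
    have h2 := Nat.choose_pos hkn
    have h3 : 0 < ((Finset.univ : Finset (Clause n k)).filter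
        (fun c => ¬ Sat (fun _ => false) c)).card := lt_of_lt_of_le h2 h1
    obtain ⟨c, -⟩ := Finset.card_pos.mp h3
    exact ⟨c, Finset.mem_univ _⟩
  intro hwin
  unfold ClientWinsGame at hwin
  generalize hU : (Finset.univ : Finset (Clause n k)) = U at hwin hne
  cases hwin with
  | done _ h => exact absurd rfl hne.ne_empty
  | round _ _ hU' choice hmem hw =>
    have h1 := hw U (Finset.Subset.refl _) hne (by omega)
    rw [Finset.sdiff_self] at h1
    generalize hE : (∅ : Finset (Clause n k)) = V at h1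
    cases h1 with
    | done _ h =>
      set c := choice U with hc
      obtain ⟨c', hc', hns⟩ := h (fun i => decide (i ∈ c.1.1))
      rw [← hE] at hc'
      have hcc : c' = c := by simpa using hc'
      rw [hcc] at hns
      apply hns
      have hcard : 0 < (c.1.1 ∪ c.1.2).card := by rw [c.2.2]; omega
      obtain ⟨i, hi⟩ := Finset.card_pos.mp hcard
      rcases Finset.mem_union.mp hi with hi | hi
      · exact Or.inl ⟨i, hi, by simpa using hi⟩
      · refine Or.inr ⟨i, hi, ?_⟩
        have : i ∉ c.1.1 := fun h' => (Finset.disjoint_left.mp c.2.1) h' hi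
        simpa using this
    | round _ _ hV _ _ _ =>
      rw [← hE] at hV
      exact absurd rfl hV.ne_empty

/-- `b^{CW}(n,k) + 1 > C(n,k) / (n ln 2)` for all `n ≥ k ≥ 2`. -/
theorem result : ∀ n k : ℕ, 2 ≤ k → k ≤ n →
    (n.choose k : ℝ) / ((n : ℝ) * Real.log 2) < (bCW n k : ℝ) + 1 := by
  intro n k hk hkn
  have hmem : bCW n k ∈ {q | 1 ≤ q ∧ ¬ ClientWinsGame n k q} :=
    Nat.sInf_mem (waiter_wins n k (by omega) hkn)
  by_contra hcon
  rw [not_lt] at hcon
  apply hmem.2
  apply client_wins n k _ hkn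
  have hlog : 0 < Real.log 2 := Real.log_pos (by norm_num)
  have hn : (0 : ℝ) < n := by exact_mod_cast (by omega : 0 < n)
  rwa [le_div_iff₀ (by positivity)] at hcon

end Pool.Agent.TH843.ClientWaiterLowerBound
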